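import Mathlib
import Pool.Agent.V5helper49.IR.Stm

/-! # Project IR, job TRF: the transfer from the finite averages `EB` to a probability space -/

set_option autoImplicit false

namespace Pool.Agent.V5helper53.IR

open Finset MeasureTheory ProbabilityTheory
open Pool.Agent.V5helper49.IR

open Classical in
theorem filt_succ (S : Set ℕ) (M : ℕ) :
    (range (M + 1)).filter (fun k => k ∈ S) =
      if M ∈ S then insert M ((range M).filter (fun k => k ∈ S)) else (range M).filter (fun k => k ∈ S) := by
  rw [Finset.range_add_one, Finset.filter_insert]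

open Classical in
theorem step_set {Ω : Type*} (A : Ω → Set ℕ) (M : ℕ) (Q : Finset ℕ → Prop) :
    {ω | Q ((range (M + 1)).filter (fun k => k ∈ A ω))} =
      ({ω | M ∈ A ω} ∩ {ω | Q (insert M ((range M).filter (fun k => k ∈ A ω)))}) ∪
        ({ω | M ∈ A ω}ᶜ ∩ {ω | Q ((range M).filter (fun k => k ∈ A ω))}) := by
  ext ω
  simp only [Set.mem_ofPred_eq, Set.mem_union, Set.mem_inter_iff, Set.mem_compl_iff]
  rw [filt_succ]
  by_cases h : M ∈ A ω <;> simp [h]

/-- the sigma-algebra of the elements below `M` -/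
abbrev gen {Ω : Type*} (A : Ω → Set ℕ) (M : ℕ) : MeasurableSpace Ω :=
  MeasurableSpace.generateFrom {t | ∃ j < M, {ω | j ∈ A ω} = t}

open Classical in
theorem meas_gen {Ω : Type*} (A : Ω → Set ℕ) (M : ℕ) : ∀ Q : Finset ℕ → Prop,
    MeasurableSet[gen A M] {ω | Q ((range M).filter (fun k => k ∈ A ω))} := by
  induction M with
  | zero =>
    intro Q
    by_cases h : Q ∅
    · simp [h]
    · simp [h]
  | succ M ih =>
    intro Q
    rw [step_set]
    have hmono : gen A M ≤ gen A (M + 1) := by
      apply MeasurableSpace.generateFrom_mono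
      rintro t ⟨j, hj, h⟩
      exact ⟨j, by omega, h⟩
    have hM : MeasurableSet[gen A (M + 1)] {ω | M ∈ A ω} :=
      MeasurableSpace.measurableSet_generateFrom ⟨M, by omega, rfl⟩
    exact MeasurableSet.union (MeasurableSet.inter hM (hmono _ (ih (fun B => Q (insert M B)))))
      (MeasurableSet.inter hM.compl (hmono _ (ih Q)))

open Classical in
theorem t_TRF.{u} : S_TRF.{u} := by
  intro Ω _ μ _ A hA hind M
  have hle : ∀ M, gen A M ≤ (inferInstance : MeasurableSpace Ω) := by
    intro M
    apply MeasurableSpace.generateFrom_le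
    rintro t ⟨j, _, rfl⟩
    exact hA j
  induction M with
  | zero =>
    intro Q
    refine ⟨hle 0 _ (meas_gen A 0 Q), ?_⟩
    by_cases h : Q ∅
    · simp [h, EB]
    · simp [h, EB]
  | succ M ih =>
    intro Q
    refine ⟨hle (M + 1) _ (meas_gen A (M + 1) Q), ?_⟩
    have hI : Indep (MeasurableSpace.generateFrom {{ω | M ∈ A ω}}) (gen A M) μ :=
      hind.indep_generateFrom_lt hA M
    have hM1 : MeasurableSet[MeasurableSpace.generateFrom {{ω | M ∈ A ω}}] {ω | M ∈ A ω} :=
      MeasurableSpace.measurableSet_generateFrom rfl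
    have h1 : μ.real ({ω | M ∈ A ω} ∩ {ω | Q (insert M ((range M).filter (fun k => k ∈ A ω)))}) =
        μ.real {ω | M ∈ A ω} * μ.real {ω | Q (insert M ((range M).filter (fun k => k ∈ A ω)))} := by
      have := (Indep_iff _ _ _).1 hI _ _ hM1 (meas_gen A M (fun B => Q (insert M B)))
      simp only [Measure.real, this, ENNReal.toReal_mul]
    have h2 : μ.real ({ω | M ∈ A ω}ᶜ ∩ {ω | Q ((range M).filter (fun k => k ∈ A ω))}) =
        μ.real {ω | M ∈ A ω}ᶜ * μ.real {ω | Q ((range M).filter (fun k => k ∈ A ω))} := by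
      have := (Indep_iff _ _ _).1 hI _ _ hM1.compl (meas_gen A M Q)
      simp only [Measure.real, this, ENNReal.toReal_mul]
    rw [step_set, measureReal_union _ _, h1, h2, (ih (fun B => Q (insert M B))).2, (ih Q).2,
      probReal_compl_eq_one_sub (hA M)]
    · rfl
    · rw [Set.disjoint_left]
      rintro ω ⟨h, _⟩ ⟨h', _⟩
      exact h' h
    · exact ((hA M).compl).inter (ih Q).1

end Pool.Agent.V5helper53.IR
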