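import Pool.Agent.V5helper9.IR.LWR
import Pool.Agent.V5helper49.IR.Stm2

/-! # Project IR, job UPR: the number of elements, upper bound -/

set_option autoImplicit false

namespace Pool.Agent.V5helper53.IR

open Finset MeasureTheory ProbabilityTheory Filter Topology
open scoped ENNReal
open Pool.Agent.V5helper9.IR

section
variable {Ω : Type*} [MeasurableSpace Ω] (μ : Measure Ω) [IsProbabilityMeasure μ] (A : Ω → Set ℕ)
  (hA : ∀ n, MeasurableSet {ω | n ∈ A ω})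

include hA in
lemma cheb_up (hI : iIndepSet (fun n => {ω | n ∈ A ω}) μ) (N : ℕ) (a b : ℝ) (hb : 0 < b)
    (hS : ∑ k ∈ range N, μ.real {ω | k ∈ A ω} ≤ a) :
    μ {ω | a + b ≤ (∑ k ∈ range N, X A k) ω} ≤ ENNReal.ofReal (a / b ^ 2) := by
  have hv := cnt_var μ A hA hI N
  have hi := cnt_int μ A hA N
  set S := ∑ k ∈ range N, μ.real {ω | k ∈ A ω} with hSd
  have hL : MemLp (∑ k ∈ range N, X A k) 2 μ := memLp_finsetSum' _ (fun i _ => X_memLp μ A hA i)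
  have hc := meas_ge_le_variance_div_sq hL (c := b) hb
  refine (measure_mono ?_).trans (hc.trans (ENNReal.ofReal_le_ofReal ?_))
  · intro ω hω
    rw [Set.mem_ofPred_eq] at hω ⊢
    rw [hi]
    exact le_trans (by linarith) (le_abs_self _)
  · exact div_le_div_of_nonneg_right (by linarith) (by positivity)

lemma sqrt_two_pow (i : ℕ) : Real.sqrt ((2 ^ i : ℕ) : ℝ) = (Real.sqrt 2) ^ i := by
  have h : ((2 ^ i : ℕ) : ℝ) = ((Real.sqrt 2) ^ i) ^ 2 := by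
    rw [← pow_mul, mul_comm i 2, pow_mul, Real.sq_sqrt (by norm_num)]
    push_cast; rfl
  rw [h, Real.sqrt_sq (by positivity)]

include hA in
lemma one_c (hI : iIndepSet (fun n => {ω | n ∈ A ω}) μ) (c : ℝ) (hc : 0 < c)
    (hE : ∀ᶠ N : ℕ in atTop, ∑ k ∈ range (N + 1), μ.real {ω | k ∈ A ω} ≤ c / 8 * Real.sqrt N) :
    ∀ᵐ ω ∂μ, ∀ᶠ N : ℕ in atTop, (∑ k ∈ range (N + 1), X A k) ω < c * Real.sqrt N := by
  classical
  rw [eventually_atTop] at hE
  obtain ⟨N₀, hN₀⟩ := hE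
  set j₀ := N₀ + 1 with hj₀
  have hbig : ∀ i, j₀ ≤ i → N₀ ≤ 2 ^ i := fun i hi => by
    have := Nat.lt_two_pow_self (n := i)
    omega
  have hs2 : (0 : ℝ) < Real.sqrt 2 := by positivity
  have hs2' : (1 : ℝ) < Real.sqrt 2 := by
    rw [show (1 : ℝ) = Real.sqrt 1 by simp]
    exact Real.sqrt_lt_sqrt (by norm_num) (by norm_num)
  have hbound : ∀ j, μ {ω | c / 8 * (Real.sqrt 2) ^ (j + j₀) + 3 * c / 8 * (Real.sqrt 2) ^ (j + j₀) ≤
      (∑ k ∈ range (2 ^ (j + j₀) + 1), X A k) ω} ≤ ENNReal.ofReal ((8 / (9 * c)) * ((Real.sqrt 2)⁻¹) ^ j) := by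
    intro j
    have h1 := hN₀ (2 ^ (j + j₀)) (hbig _ (by omega))
    rw [sqrt_two_pow] at h1
    refine (cheb_up μ A hA hI (2 ^ (j + j₀) + 1) _ _ (by positivity) h1).trans
      (ENNReal.ofReal_le_ofReal ?_)
    have h2 : (Real.sqrt 2) ^ j ≤ (Real.sqrt 2) ^ (j + j₀) :=
      pow_le_pow_right₀ hs2'.le (by omega)
    have h3 : 0 < (Real.sqrt 2) ^ j := by positivity
    calc c / 8 * (Real.sqrt 2) ^ (j + j₀) / (3 * c / 8 * (Real.sqrt 2) ^ (j + j₀)) ^ 2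
        = (8 / (9 * c)) * ((Real.sqrt 2) ^ (j + j₀))⁻¹ := by
          field_simp
          ring
      _ ≤ (8 / (9 * c)) * ((Real.sqrt 2) ^ j)⁻¹ := by gcongr
      _ = _ := by rw [inv_pow]
  have hsum : Summable (fun j : ℕ => (8 / (9 * c)) * ((Real.sqrt 2)⁻¹) ^ j) :=
    (summable_geometric_of_lt_one (by positivity) (inv_lt_one_of_one_lt₀ hs2')).mul_left _
  have hne : (∑' j, μ {ω | c / 8 * (Real.sqrt 2) ^ (j + j₀) + 3 * c / 8 * (Real.sqrt 2) ^ (j + j₀) ≤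
      (∑ k ∈ range (2 ^ (j + j₀) + 1), X A k) ω}) ≠ ∞ :=
    ne_top_of_le_ne_top hsum.tsum_ofReal_ne_top (ENNReal.tsum_le_tsum hbound)
  filter_upwards [ae_eventually_notMem hne] with ω hω
  rw [eventually_atTop] at hω ⊢
  obtain ⟨J, hJ⟩ := hω
  refine ⟨2 ^ (J + j₀), fun N hN => ?_⟩
  have hNpos : N ≠ 0 := by
    have := Nat.one_le_two_pow (n := J + j₀)
    omega
  set i := Nat.log 2 N with hi
  have h1 : 2 ^ i ≤ N := Nat.pow_log_le_self 2 hNpos
  have h2 : N < 2 ^ (i + 1) := Nat.lt_pow_succ_log_self (by norm_num) N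
  have h3 : J + j₀ ≤ i := Nat.le_log_of_pow_le (by norm_num) hN
  have h4 := hJ (i + 1 - j₀) (by omega)
  rw [not_le, show i + 1 - j₀ + j₀ = i + 1 by omega] at h4
  have h7 : (∑ k ∈ range (N + 1), X A k) ω ≤ (∑ k ∈ range (2 ^ (i + 1) + 1), X A k) ω := by
    rw [← cnt_eq, ← cnt_eq]
    have : range (N + 1) ⊆ range (2 ^ (i + 1) + 1) := Finset.range_subset_range.2 (by omega)
    exact_mod_cast Finset.card_le_card (Finset.filter_subset_filter _ this)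
  have h8 : (Real.sqrt 2) ^ i ≤ Real.sqrt N := by
    rw [← sqrt_two_pow]
    exact Real.sqrt_le_sqrt (by exact_mod_cast h1)
  have h9 : Real.sqrt 2 ≤ 2 := Real.sqrt_le_iff.2 (by norm_num)
  have h10 : (Real.sqrt 2) ^ (i + 1) ≤ 2 * Real.sqrt N := by
    rw [pow_succ, mul_comm]
    exact mul_le_mul h9 h8 (by positivity) (by norm_num)
  calc (∑ k ∈ range (N + 1), X A k) ω ≤ (∑ k ∈ range (2 ^ (i + 1) + 1), X A k) ω := h7
    _ < c / 8 * (Real.sqrt 2) ^ (i + 1) + 3 * c / 8 * (Real.sqrt 2) ^ (i + 1) := h4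
    _ = c / 2 * (Real.sqrt 2) ^ (i + 1) := by ring
    _ ≤ c / 2 * (2 * Real.sqrt N) := by gcongr
    _ = c * Real.sqrt N := by ring

end

/-- **UPR** -/
theorem t_UPR.{u} : Pool.Agent.V5helper49.IR.S_UPR.{u} := by
  classical
  intro Ω _ μ _ A hA hI hE
  have h : ∀ m : ℕ, ∀ᵐ ω ∂μ, ∀ᶠ N : ℕ in atTop,
      (∑ k ∈ range (N + 1), X A k) ω < (1 / ((m : ℝ) + 1)) * Real.sqrt N := fun m =>
    one_c μ A hA hI (1 / ((m : ℝ) + 1)) (by positivity) (hE _ (by positivity))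
  filter_upwards [ae_all_iff.2 h] with ω hω
  intro c hc
  obtain ⟨m, hm⟩ := exists_nat_one_div_lt hc
  filter_upwards [hω m] with N hN
  have h8 : (((range (N + 1)).filter (fun k => k ∈ A ω)).card : ℝ) = (∑ k ∈ range (N + 1), X A k) ω :=
    cnt_eq A (N + 1) ω
  have h9 : (∑ k ∈ range (N + 1), X A k) ω < c * Real.sqrt N :=
    lt_of_lt_of_le hN (mul_le_mul_of_nonneg_right hm.le (Real.sqrt_nonneg _))
  rw [← h8] at h9
  simpa using h9

end Pool.Agent.V5helper53.IR
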